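import Pool.Graph.R_pool_sql_team_seeded_2aa45f1a.Q171.RC.Kappa
import Pool.Agent.H58.IM.Lim

/-!
# All rational images of varieties with free runs of points are uniruled, with uniform bounds

A smooth projective variety `X` is rationally connected if and only if all its rational images of
positive dimension are uniruled (Campana, Kollár-Miyaoka-Mori, Graber-Harris-Starr), and the question
predicts that this is so if `X` has no holomorphic tensor differentials. The pluricanonical forms on
the rational images are examples of such differentials. Here we prove the uniruledness of the rational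
images of bounded degree, and the vanishing of their pluricanonical forms, for varieties which carry
runs of points of the following kind.

For all `N`, `n`, `D`, `c`, `q`, `r`, `e` and all functions `b : ℕ → ℕ` there are numbers `d` and `E` such
that the following holds for ALL irreducible projective varieties `X` in projective `N`-space, with the
homogeneous ideal `p` (of any degree). Assume that for each hypersurface of degree at most `E` which
does not contain `X` there is a run `x 0, ..., x d` of points of `X` outside of the hypersurface such that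

* the homogeneous coordinates satisfy nontrivial linear recurrences of order at most `r` whose
  coefficients are values of polynomials of degree at most `e` in `q` variables at the points of an
  orbit `t 0, t 1, ...` in `ℂ ^ q` of a rational map of degree at most `e`, defined at `t 0, ..., t d`;
* every nonconstant rational function `g1 / g0` on `X` of degree at most `c` is free over the orbit
  (`Free b d t`): for `k ≤ d`, if a relation of degree at most `k` between the point `t m` and the value
  at `x m` holds for more than `b k` of the indices `m ≤ d`, then it is trivial: it holds for all values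
  of the ratio, at all `m ≤ d`.

Then for all nonconstant rational maps from `X` to projective `n`-space which are given by forms of
degree at most `c` and have an image whose closure `Y` is given by forms of degree at most `D`

(1) EVERY point of `Y` lies on a nonconstant rational curve of degree at most `d` on `Y`;

(2) the Kodaira dimension of `Y` is `-∞`: all pluricanonical forms which are regular at all prime divisors
of all models of `Y` are zero.
-/

set_option autoImplicit false

namespace Pool.Agent.Results.MP_4329d7_ag.ImagesOfFreeRuns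

open MvPolynomial Pool.Agent.Q171.RC Pool.Agent.H58.DR Pool.Agent.H58.IM
open Pool.Agent.TH143.GT (FunField)

/-- The points `x 0, ..., x B` of the variety of `p` are given by linear recurrences, of order at most
`r`, with coefficients which are polynomials of degree at most `e` at the points of an orbit of a
rational map of degree at most `e`, and the nonconstant rational functions on the variety of degree at
most `c` are free over the orbit. -/
structure FreeRun {N : ℕ} (q r e : ℕ) (b : ℕ → ℕ) (c : ℕ)
    (p : Ideal (MvPolynomial (Fin (N + 1)) ℂ)) (B : ℕ) (x : ℕ → Fin (N + 1) → ℂ) : Prop where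
  on : ∀ m ≤ B, ∀ F ∈ p, (∃ k, F.IsHomogeneous k) → eval (x m) F = 0
  eqn : ∃ (t : ℕ → Fin q → ℂ) (A R : Fin q → MvPolynomial (Fin q) ℂ),
    (∀ i, (A i).totalDegree ≤ e) ∧ (∀ i, (R i).totalDegree ≤ e) ∧
    (∀ m ≤ B, ∀ i, eval (t m) (R i) ≠ 0) ∧
    (∀ m ≤ B, ∀ i, t (m + 1) i = eval (t m) (A i) / eval (t m) (R i)) ∧
    (∀ j, ∃ P : ℕ → MvPolynomial (Fin q) ℂ, (∃ k ≤ r, ∃ m ≤ B, eval (t m) (P k) ≠ 0) ∧
      (∀ k, (P k).totalDegree ≤ e) ∧
      ∀ m ≤ B, ∑ k ∈ Finset.range (r + 1), eval (t m) (P k) * x (m + k) j = 0) ∧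
    ∀ (k : ℕ) (g1 g0 : MvPolynomial (Fin (N + 1)) ℂ), k ≤ c → g1.IsHomogeneous k →
      g0.IsHomogeneous k → g0 ∉ p → (∀ a : ℂ, g1 - C a * g0 ∉ p) →
      Free b B t fun m => eval (x m) g1 / eval (x m) g0

theorem result (N n D c q r e : ℕ) (b : ℕ → ℕ) : ∃ d E : ℕ,
    ∀ (p : Ideal (MvPolynomial (Fin (N + 1)) ℂ)) (K : Type) [Field K] [Algebra ℂ K] (w : ℕ)
      (y : Fin (N + 1) → K), FunField p 1 K w y →
    (∀ G : MvPolynomial (Fin (N + 1)) ℂ, (∃ k, k ≤ E ∧ G.IsHomogeneous k) → G ∉ p →
      ∃ x : ℕ → Fin (N + 1) → ℂ, FreeRun q r e b c p d x ∧ ∀ m ≤ d, eval (x m) G ≠ 0) →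
    ∀ (g : Fin (n + 1) → MvPolynomial (Fin (N + 1)) ℂ) (k : ℕ), k ≤ c →
      (∀ j, (g j).IsHomogeneous k) → (∃ u v, g v ∉ p ∧ ∀ a : ℂ, g u - C a * g v ∉ p) →
    ∀ (p' : Ideal (MvPolynomial (Fin (n + 1)) ℂ)) (K' : Type) [Field K'] [Algebra ℂ K'] (w' : ℕ)
      (y' : Fin (n + 1) → K'), FunField p' 1 K' w' y' → GivenBy p' D →
      (∀ H : MvPolynomial (Fin (n + 1)) ℂ, (∃ k, H.IsHomogeneous k) →
        (H ∈ p' ↔ aeval g H ∈ p)) →
    (∀ z : Fin (n + 1) → ℂ, z ≠ 0 → (∀ F ∈ p', (∃ k, F.IsHomogeneous k) → eval z F = 0) →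
      OnR p' d z) ∧ KappaNeg K' w' := by
  obtain ⟨d, hd⟩ := im_strong n N D q r e c b
  obtain ⟨E, hE⟩ := cover_of_dense n D d
  refine ⟨d, c * E + c, ?_⟩
  intro p K _ _ w y hy hrun g k hk hg huv p' K' _ _ w' y' hy' hD hpp
  obtain ⟨u, v, hv, huv⟩ := huv
  have hzv : ∀ (x : Fin (N + 1) → ℂ) (H : MvPolynomial (Fin (n + 1)) ℂ),
      eval (fun j => eval x (g j)) H = eval x (aeval g H) := by
    intro x H
    have h1 := MvPolynomial.comp_aeval_apply (f := g) (aeval x :
      MvPolynomial (Fin (N + 1)) ℂ →ₐ[ℂ] ℂ) H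
    rw [MvPolynomial.aeval_eq_eval] at h1
    rw [← MvPolynomial.aeval_eq_eval]
    exact h1.symm
  have hcov := hE p' hD fun G hG hGX => by
    obtain ⟨z, hz, hzG⟩ := hGX
    obtain ⟨l, hl, hGl⟩ := hG
    have h1 : G ∉ p' := fun h => hzG (hz G h ⟨l, hGl⟩)
    have h2 : aeval g G ∉ p := fun h => h1 ((hpp G ⟨l, hGl⟩).2 h)
    have h3 : (aeval g G : MvPolynomial (Fin (N + 1)) ℂ).IsHomogeneous (k * l) :=
      hGl.aeval g hg
    have h4 : aeval g G * g v ∉ p := by
      intro h
      have h5 := hy.sub.mem _ h
      rw [Pool.Agent.TH143.GT.val_mul'] at h5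
      rcases mul_eq_zero.1 h5 with h6 | h6
      · exact h2 (hy.mem _ ⟨_, h3⟩ h6)
      · exact hv (hy.mem _ ⟨_, hg v⟩ h6)
    obtain ⟨x, hx, hxG⟩ := hrun (aeval g G * g v) ⟨k * l + k, by
      have := Nat.mul_le_mul hk hl
      omega, h3.mul (hg v)⟩ h4
    have hxG1 : ∀ m ≤ d, eval (x m) (aeval g G) ≠ 0 ∧ eval (x m) (g v) ≠ 0 := by
      intro m hm
      have h5 := hxG m hm
      rw [map_mul, mul_ne_zero_iff] at h5
      exact h5
    obtain ⟨t, A, R, e1, e2, e3, e4, e5, e6⟩ := hx.eqn
    have hne : ∀ m ≤ d, (fun j => eval (x m) (g j)) ≠ 0 := fun m hm h =>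
      (hxG1 m hm).2 (congrFun h v)
    obtain ⟨m, hm, h5⟩ := hd (formsLe p' D) (fun F hF => hF.2) g
      (fun j => (hg j).totalDegree_le.trans hk) x
      { ne := hne
        on := fun m hm F hF => by
          obtain ⟨hF1, l', -, hF2⟩ := hF
          rw [hzv]
          exact hx.on m hm _ ((hpp F ⟨l', hF2⟩).1 hF1) ⟨_, hF2.aeval g hg⟩
        eqn := ⟨t, A, R, e1, e2, e3, e4, e5, u, v, e6 k (g u) (g v) hk (hg u) (hg v) hv huv⟩ }
    refine ⟨fun j => eval (x m) (g j), hne m hm, (onR_iff hD d _).1 h5, ?_⟩
    rw [hzv]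
    exact (hxG1 m hm).1
  exact ⟨hcov, kappa_of_cover hy' hD hcov⟩

end Pool.Agent.Results.MP_4329d7_ag.ImagesOfFreeRuns
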